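import Pool.Agent.Helper76.CPF.Pf
import Pool.Agent.Helper76.CDET.CliqueB
import Pool.Agent.Helper72.CLQ.GadAReal
import Pool.Agent.PF.Grid

/-!
Sums of Pfaffians as identity tests (MP_b6562f_lc): degrees, loops, the clique gadgets.
-/

set_option autoImplicit false
set_option linter.unusedSectionVars false

namespace Pool.Agent.Helper76.CDET

open Finset MvPolynomial
open scoped ENNReal BigOperators

section
variable {F : Type} [Field F] {V Ya : Type}

theorem IsPfSum.mono [Fintype V] {r m m' δ ν : ℕ} (h : m ≤ m') {f : MvPolynomial (V ⊕ Ya) F}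
    (hf : IsPfSum r m δ ν f) : IsPfSum r m' δ ν f := by
  obtain ⟨s, P, A, hs, h1⟩ := hf
  exact ⟨s, P, A, fun i => (hs i).trans h, h1⟩

/-- the degree in the variables `V` as a total degree -/
theorem degree_le_of_Psi [Fintype V] (f : MvPolynomial (V ⊕ Ya) F) (d : ℕ)
    (h : (Psi F (ext Ya fun e : V => some (some e)) f).totalDegree ≤ d)
    (μ : (V ⊕ Ya) →₀ ℕ) (hμ : μ ∈ f.support) : ∑ e, μ (Sum.inl e) ≤ d := by
  classical
  have hp : ∀ (μ : (V ⊕ Ya) →₀ ℕ) (e : V),
      push (ext Ya fun e : V => some (some e)) μ e = μ (Sum.inl e) := by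
    intro μ e
    rw [push_ext, Finset.sum_eq_single e]
    · intro b hb hne
      rw [Finset.mem_filter] at hb
      exact absurd (by simpa using hb.2) hne
    · intro h
      exfalso
      apply h
      rw [Finset.mem_filter]
      exact ⟨Finset.mem_univ _, rfl⟩
  have h1 := coeff_Psi_ne_zero (ext Ya fun e : V => some (some e)) f μ hμ
    (by rintro (e | y) hv <;> simp [ext] at hv)
    (by
      intro μ' _ _ h2 h3
      ext v
      rcases v with e | y
      · rw [← hp μ', ← hp μ, h2]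
      · have h6 := DFunLike.congr_fun h3 (Sum.inr y)
        rw [rest, rest, Finsupp.filter_apply_pos (fun v => ext Ya (fun e : V => some (some e)) v =
            some none) _ (by simp [ext]), Finsupp.filter_apply_pos (fun v =>
            ext Ya (fun e : V => some (some e)) v = some none) _ (by simp [ext])] at h6
        exact h6)
  have h2 := (le_totalDegree (mem_support_iff.2 h1)).trans h
  have h3 : ((push (ext Ya fun e : V => some (some e)) μ).sum fun _ e => e) =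
      ∑ e, μ (Sum.inl e) := by
    have h4 : ((push (ext Ya fun e : V => some (some e)) μ).sum fun _ e => e) =
        (push (ext Ya fun e : V => some (some e)) μ).degree := rfl
    rw [h4, Finsupp.degree_eq_sum]
    exact Finset.sum_congr rfl fun e _ => hp μ e
  rw [h3] at h2
  exact h2

/-- the degree of a sum of Pfaffians -/
theorem deg_pfsum [Fintype V] {r m δ ν : ℕ} {f : MvPolynomial (V ⊕ Ya) F}
    (hf : IsPfSum r m δ ν f) (μ : (V ⊕ Ya) →₀ ℕ) (hμ : μ ∈ f.support) :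
    ∑ e, μ (Sum.inl e) ≤ ν + m * δ := by
  classical
  obtain ⟨s, P, A, hs, hP, hA, hfA⟩ := hf
  refine degree_le_of_Psi f _ ?_ μ hμ
  rw [hfA, map_sum]
  refine (totalDegree_finsetSum _ _).trans (Finset.sup_le fun i _ => ?_)
  rw [map_mul, Pool.PF.map_pf]
  refine (totalDegree_mul _ _).trans (Nat.add_le_add ?_ ?_)
  · exact totalDegree_Psi_le _ _ _ fun μ hμ => (degree_push_le _ μ).trans (hP i μ hμ)
  · refine (Pool.PF.totalDegree_pf_le δ (s i) _ fun p q => ?_).trans
      (Nat.mul_le_mul_right δ (hs i))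
    exact totalDegree_Psi_le _ _ _ fun μ hμ => (degree_push_le _ μ).trans (hA i p q μ hμ)

/-- a sum of Pfaffians which is not zero has at least one summand -/
theorem pos_pfsum [Fintype V] {r m δ ν : ℕ} {f : MvPolynomial (V ⊕ Ya) F}
    (hf : IsPfSum r m δ ν f) (h0 : f ≠ 0) : 1 ≤ r := by
  obtain ⟨s, P, A, -, -, -, hfA⟩ := hf
  rcases Nat.eq_zero_or_pos r with h | h
  · subst h
    exact absurd (hfA.trans (Finset.sum_of_isEmpty _)) h0
  · exact h

theorem IsPfSum.restr [DecidableEq V] [Fintype V] {r m δ ν : ℕ} {f : MvPolynomial (V ⊕ Ya) F}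
    (hf : IsPfSum r m δ ν f) (S : Finset V) : IsPfSum r m δ ν (restr S f) := by
  obtain ⟨s, P, A, hs, hP, hA, hfA⟩ := hf
  refine ⟨s, fun i => CDET.restr S (P i), fun i => (A i).map (restrHom F Ya S), hs, ?_, ?_, ?_⟩
  · intro i μ hμ
    exact hP i μ (support_restr _ _ hμ)
  · intro i p q μ hμ
    have hμ' : μ ∈ (CDET.restr S (A i p q)).support := hμ
    exact hA i p q μ (support_restr _ _ hμ')
  · rw [← restrHom_apply, hfA, map_sum]
    refine Finset.sum_congr rfl fun i _ => ?_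
    rw [map_mul]
    congr 1
    exact Pool.PF.map_pf (restrHom F Ya S).toRingHom (s i) (A i)

end

section
variable {F : Type} [Field F] {Ya : Type} {n : ℕ}

/-- reduction to loop-free polynomials -/
theorem loopfree_pf (P : SimpleGraph (Fin n) → Prop) (f : MvPolynomial (Sym2 (Fin n) ⊕ Ya) F)
    (hml : ∀ μ ∈ f.support, ∀ e, μ (Sum.inl e) ≤ 1)
    (hP : ∀ G : SimpleGraph (Fin n), restrictG G f ≠ 0 ↔ P G)
    {r m δ ν : ℕ} (hf : IsPfSum r m δ ν f) :
    ∃ f' : MvPolynomial (Sym2 (Fin n) ⊕ Ya) F,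
      (∀ μ ∈ f'.support, ∀ e, μ (Sum.inl e) ≤ 1) ∧
      (∀ S : Finset (Sym2 (Fin n)), restr S f' ≠ 0 ↔
        P (SimpleGraph.fromEdgeSet (S : Set (Sym2 (Fin n))))) ∧
      IsPfSum r m δ ν f' := by
  classical
  refine ⟨restr (ND n) f, ?_, ?_, hf.restr _⟩
  · intro μ hμ e
    exact hml μ (support_restr _ _ hμ) e
  · intro S
    rw [restr_ND, hP]

/-- gadget B -/
theorem gadB_pf {k : ℕ} (hk2 : 2 ≤ k) (f : MvPolynomial (Sym2 (Fin n) ⊕ Ya) F)
    (hml : ∀ μ ∈ f.support, ∀ e, μ (Sum.inl e) ≤ 1)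
    (hP : ∀ S : Finset (Sym2 (Fin n)), restr S f ≠ 0 ↔ PC n k S)
    {r m δ ν : ℕ} (hf : IsPfSum r m δ ν f) (hδ : 1 ≤ δ)
    (D l L R : ℕ) (h1 : 2 * D * (1 + l * L) + R ≤ k) (h2 : 2 * D * (2 ^ l - 1 + l * L) ≤ n - k)
    (hkn : k ≤ n) (hDm : D < m) (q : ℝ) (hq0 : 0 < q) (hq1 : q < 1) :
    q ^ (ν + D * (δ - 1)) * (2 - q ^ (L * R)) ^ (2 * D * l) ≤ r *
      ∑ j ∈ Finset.range (2 * D + 1), (Nat.choose (2 * (m - D) - 1 + j) j : ℝ) *
        (1 - q ^ δ) ^ j := by
  classical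
  obtain ⟨R', hR'⟩ : ∃ R', R' = k - 2 * D * (1 + l * L) := ⟨_, rfl⟩
  have hRR : R ≤ R' := by omega
  have hk : k = 2 * D * (1 + l * L) + R' := by omega
  have hpos : 1 ≤ 2 ^ l := Nat.one_le_two_pow
  have hcard : Fintype.card (VB D l L R') ≤ Fintype.card (Fin n) := by
    rw [card_VB, Fintype.card_fin]
    have h3 : 2 * D * (2 ^ l + 2 * l * L) = 2 * D * (1 + l * L) + 2 * D * (2 ^ l - 1 + l * L) := by
      rw [← mul_add]
      congr 1
      have : 2 * l * L = l * L + l * L := by ring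
      omega
    omega
  obtain ⟨ι⟩ := Function.Embedding.nonempty_of_card_le hcard
  have hmain := pf_bits_real (B := L * R') f hml (PC n k) hP (XB ι) (YB ι) (ZB ι) (injB ι)
    (XB_notMem ι) (YB_notMem ι) (fun c S hS hsub => gadB_one ι hk hk2 c S hS hsub)
    (fun c => gadB_two ι hk c) hf hδ hDm q hq0 hq1
  refine le_trans ?_ hmain
  have h4 : q ^ (L * R') ≤ q ^ (L * R) :=
    pow_le_pow_of_le_one hq0.le hq1.le (Nat.mul_le_mul_left L hRR)
  have h5 : q ^ (L * R) ≤ 1 := pow_le_one₀ hq0.le hq1.le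
  refine mul_le_mul_of_nonneg_left ?_ (pow_nonneg hq0.le _)
  gcongr
  linarith

/-- the degree of a test -/
theorem deg_test_pf {k : ℕ} (hkn : k ≤ n) (f : MvPolynomial (Sym2 (Fin n) ⊕ Ya) F)
    (hP : ∀ S : Finset (Sym2 (Fin n)), restr S f ≠ 0 ↔ PC n k S)
    {r m δ ν : ℕ} (hf : IsPfSum r m δ ν f) : k * (k - 1) ≤ 2 * (ν + m * δ) ∧ 1 ≤ r := by
  classical
  obtain ⟨C, -, hC⟩ := Finset.exists_subset_card_eq
    (show k ≤ #(Finset.univ : Finset (Fin n)) by simpa using hkn)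
  set S : Finset (Sym2 (Fin n)) := C.sym2 with hS
  have hPS : PC n k S := by
    refine ⟨C, hC, fun u hu v hv _ => ?_⟩
    rw [hS, Finset.mk_mem_sym2_iff]
    exact ⟨hu, hv⟩
  obtain ⟨μ, hμ, hμS⟩ := exists_sup f (PC n k) hP S hPS
  obtain ⟨K, hK, hKe⟩ := prop_sup f (PC n k) hP μ hμ
  have h1 : #(Finset.offDiag K) ≤ 2 * #(sup μ) := by
    have h2 : ∀ e ∈ sup μ, #(K.offDiag.filter fun p => s(p.1, p.2) = e) ≤ 2 := by
      intro e _
      induction e using Sym2.ind with
      | _ u v =>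
        have h3 : (K.offDiag.filter fun p => s(p.1, p.2) = s(u, v)) ⊆ {(u, v), (v, u)} := by
          intro p hp
          rw [Finset.mem_filter, Sym2.eq_iff] at hp
          rw [Finset.mem_insert, Finset.mem_singleton]
          rcases hp.2 with ⟨h4, h5⟩ | ⟨h4, h5⟩
          · exact Or.inl (Prod.ext h4 h5)
          · exact Or.inr (Prod.ext h4 h5)
        exact (Finset.card_le_card h3).trans Finset.card_le_two
    exact Finset.card_le_mul_card_image_of_maps_to (f := fun p : Fin n × Fin n => s(p.1, p.2))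
      (fun p hp => by
        rw [Finset.mem_offDiag] at hp
        exact hKe _ hp.1 _ hp.2.1 hp.2.2) 2 h2
  have h5 : #(sup μ) ≤ ∑ e, μ (Sum.inl e) := by
    rw [sup, Finset.card_filter]
    refine Finset.sum_le_sum fun e _ => ?_
    split_ifs with h6
    · omega
    · exact Nat.zero_le _
  have h7 := deg_pfsum hf μ hμ
  rw [Finset.offDiag_card, hK] at h1
  have h8 : k * (k - 1) = k * k - k := by
    rw [Nat.mul_sub, mul_one]
  refine ⟨by omega, pos_pfsum hf ?_⟩
  rw [ne_zero_iff]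
  exact ⟨μ, mem_support_iff.1 hμ⟩

end

section
open Pool.Agent.Helper72.CLQ
variable {F : Type} [Field F] {Ya : Type} {d t κ n : ℕ}

/-- gadget A (helper72) -/
theorem gadA_small {k : ℕ} (f : MvPolynomial (Sym2 (Fin n) ⊕ Ya) F)
    (hml : ∀ μ ∈ f.support, ∀ e, μ (Sum.inl e) ≤ 1)
    (hP : ∀ S : Finset (Sym2 (Fin n)), restr S f ≠ 0 ↔ PA k (S : Set (Sym2 (Fin n))))
    (hk : 2 * (d + 1) + κ = k) (hn : 2 * (d + 1) * t + κ ≤ n)
    {l0 : ℕ} {Q R : ℝ≥0∞} (hQ : Q < 1) (hR : Small f (d + 1) l0 Q R) :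
    Q ^ l0 * (1 - (1 - Q ^ (d + κ)) ^ t) ^ (2 * (d + 1)) ≤ Q ^ (2 * (d + 1) * (d + κ)) * R := by
  classical
  obtain ⟨e⟩ : Nonempty (VA d t κ ↪ Fin n) := by
    apply Function.Embedding.nonempty_of_card_le
    simp only [Fintype.card_sum, Fintype.card_prod, Fintype.card_fin, Fintype.card_bool]
    calc (d + 1) * 2 * t + κ = 2 * (d + 1) * t + κ := by ring
      _ ≤ n := hn
  subst hk
  have hsub : ∀ (c : Bk d → Fin t) (S : Finset (Sym2 (Fin n))),
      PA (2 * (d + 1) + κ) (S : Set (Sym2 (Fin n))) → (∀ z ∈ S, kapA e z ≠ none) →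
      (∀ z ∈ S, ∀ y, kapA e z = some (some (Sum.inr y)) → y ∈ Set.range (ycA c)) →
      Tc e c ⊆ S := by
    intro c S hS hd hy
    exact Finset.coe_subset.1 (Tc_subset e c S hS (fun z hz => hd z hz) fun z hz => hy z hz)
  have hsub' : ∀ (c : Bk d → Fin t) (S : Finset (Sym2 (Fin n))),
      PA (2 * (d + 1) + κ) (S : Set (Sym2 (Fin n))) → (∀ z ∈ S, kapA e z ≠ none) →
      Hits (kapA e) (fun x => MA c x) (ycA c) S → Tc e c ⊆ S := by
    intro c S hS hd hh
    refine hsub c S hS hd fun z hz y hy => ?_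
    by_contra h
    exact cnt_eq_zero (kapA e) (hh.2.2 y h) z hz hy
  have hhits : ∀ c : Bk d → Fin t, Hits (kapA e) (fun x => MA c x) (ycA c) (Tc e c) := by
    intro c
    refine ⟨fun x => cnt_Tc_X e c x, fun b => ?_, fun z hz => ?_⟩
    · rw [cnt_Tc_Y, if_pos ⟨b, rfl⟩]
    · rw [cnt_Tc_Y, if_neg hz]
  have hmain := machine2 f hml (fun S => PA (2 * (d + 1) + κ) (S : Set (Sym2 (Fin n)))) hP
    (kapA e) (D := d + 1) ycA ycA_injective (fun (c : Bk d → Fin t) x => MA c x)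
    (2 * (d + 1) * (d + κ))
    (by
      intro c
      rw [← degree_MA c, Finsupp.degree_eq_sum])
    (by
      intro c S hS hd hy
      have hT := hsub c S hS hd hy
      constructor
      · intro x
        rw [← cnt_Tc_X e c x]
        exact cnt_mono _ hT _
      · intro b
        have h1 : cnt (kapA e) (Tc e c) (Sum.inr (ycA c b)) = 1 := by
          rw [cnt_Tc_Y, if_pos ⟨b, rfl⟩]
        rw [← h1]
        exact cnt_mono _ hT _)
    (by
      intro c
      exact ⟨Tc e c, PA_Tc e c, Tc_ne_none e c, hhits c⟩)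
    (by
      have key : ∀ (c : Bk d → Fin t) (S S' : Finset (Sym2 (Fin n))),
          PA (2 * (d + 1) + κ) (S : Set (Sym2 (Fin n))) →
          PA (2 * (d + 1) + κ) (S' : Set (Sym2 (Fin n))) →
          (∀ z ∈ S, kapA e z ≠ none) → (∀ z ∈ S', kapA e z ≠ none) →
          Hits (kapA e) (fun x => MA c x) (ycA c) S →
          Hits (kapA e) (fun x => MA c x) (ycA c) S' →
          (∀ z, kapA e z = some none → (z ∈ S ↔ z ∈ S')) → S ⊆ S' := by
        intro c S S' hS hS' hd hd' hh hh' hfree z hz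
        have hT := hsub' c S hS hd hh
        have hT' := hsub' c S' hS' hd' hh'
        rcases hv : kapA e z with _ | _ | v
        · exact absurd hv (hd z hz)
        · exact (hfree z hv).1 hz
        · refine hT' (mem_of_cnt_eq (kapA e) hT (v := v) ?_ hz hv)
          have h1 := tgt_of_hits (kapA e) _ _ (ycA_injective c) S hh v
          have h2 := tgt_of_hits (kapA e) _ _ (ycA_injective c) (Tc e c) (hhits c) v
          rw [h1, h2]
      intro c S S' hS hS' hd hd' hh hh' hfree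
      exact Finset.Subset.antisymm (key c S S' hS hS' hd hd' hh hh' hfree)
        (key c S' S hS' hS hd' hd hh' hh fun z hz => (hfree z hz).symm))
    hQ hR
  refine le_trans (le_of_eq ?_) hmain
  have h5 := series_all (P := Bk d) (α := Fin t) (S := Fin d ⊕ Fin κ) Q hQ
  have h6 : Fintype.card (Bk d) = 2 * (d + 1) := by
    simp only [Fintype.card_prod, Fintype.card_fin, Fintype.card_bool]
    ring
  have h7 : Fintype.card (Fin d ⊕ Fin κ) = d + κ := by
    simp only [Fintype.card_sum, Fintype.card_fin]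
  rw [h6, h7, Fintype.card_fin] at h5
  rw [← h5]
  congr 2
  refine tsum_congr fun u => ?_
  have h8 := exists_MA_le (d := d) (t := t) (κ := κ) u
  by_cases h9 : ∀ i : Bk d, ∃ p, ∀ s, 1 ≤ u (i, (p, s))
  · rw [if_pos h9, if_pos (h8.2 h9)]
  · rw [if_neg h9, if_neg fun h10 => h9 (h8.1 h10)]

/-- gadget A with real numbers -/
theorem gadA_pf {k : ℕ} (f : MvPolynomial (Sym2 (Fin n) ⊕ Ya) F)
    (hml : ∀ μ ∈ f.support, ∀ e, μ (Sum.inl e) ≤ 1)
    (hP : ∀ S : Finset (Sym2 (Fin n)), restr S f ≠ 0 ↔ PA k (S : Set (Sym2 (Fin n))))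
    (hk : 2 * (d + 1) + κ = k) (hn : 2 * (d + 1) * t + κ ≤ n)
    {r m δ ν : ℕ} (hf : IsPfSum r m δ ν f) (hδ : 1 ≤ δ) (hDm : d + 1 < m)
    (q : ℝ) (hq0 : 0 < q) (hq1 : q < 1) :
    q ^ (ν + (d + 1) * (δ - 1)) * (1 - (1 - q ^ (d + κ)) ^ t) ^ (2 * (d + 1)) ≤
      q ^ (2 * (d + 1) * (d + κ)) * (r * ∑ j ∈ Finset.range (2 * (d + 1) + 1),
        (Nat.choose (2 * (m - (d + 1)) - 1 + j) j : ℝ) * (1 - q ^ δ) ^ j) :=
  ennreal_to_real2 t (d + κ) (2 * (d + 1)) (2 * (d + 1) * (d + κ)) r _ _ δ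
    (ν + (d + 1) * (δ - 1)) q hq0 hq1
    (gadA_small f hml hP hk hn (ofReal_lt_one hq1)
      (small_pf hDm hδ f hf _ (ofReal_lt_one hq1)))

end

end Pool.Agent.Helper76.CDET
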