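import Pool.Agent.Helper76.CPF.Bound
import Pool.Agent.Helper76.CDET.Real
import Pool.Agent.Helper76.CDET.Loop

/-!
Sums of Pfaffians as identity tests (MP_b6562f_lc): the machine.
-/

set_option autoImplicit false
set_option linter.unusedSectionVars false

namespace Pool.Agent.Helper76.CDET

open Finset MvPolynomial
open scoped ENNReal BigOperators

section
variable {F : Type} [Field F] {V Ya : Type}

/-- `f` is a sum of `r` products of a polynomial of degree at most `ν` and a Pfaffian of order at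
most `2 m` with entries of degree at most `δ`; degrees in the variables `V` only -/
def IsPfSum [Fintype V] (r m δ ν : ℕ) (f : MvPolynomial (V ⊕ Ya) F) : Prop :=
  ∃ (s : Fin r → ℕ) (P : Fin r → MvPolynomial (V ⊕ Ya) F)
    (A : ∀ i, Matrix (Fin (2 * s i)) (Fin (2 * s i)) (MvPolynomial (V ⊕ Ya) F)),
    (∀ i, s i ≤ m) ∧ (∀ i, ∀ μ ∈ (P i).support, ∑ e, μ (Sum.inl e) ≤ ν) ∧
    (∀ i p q, ∀ μ ∈ (A i p q).support, ∑ e, μ (Sum.inl e) ≤ δ) ∧
    f = ∑ i, P i * Pool.PF.pf (s i) (A i)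

/-- the shifted spaces of all families of choices are small -/
def Small [DecidableEq V] (f : MvPolynomial (V ⊕ Ya) F) (D l0 : ℕ) (Q R : ℝ≥0∞) : Prop :=
  ∀ (Xt Yt C : Type) [Fintype Xt] [Finite C] (κ : V → Option (Option (Xt ⊕ Yt)))
    (yc : C → Fin D → Yt), (∀ c, Function.Injective (yc c)) →
    Q ^ l0 * ((1 - Q) ^ (Fintype.card Xt + 1) * ∑' l : ℕ, Q ^ l *
      (Module.finrank (Lf F (V ⊕ Ya)) (Pool.SDD.Wl (K := Lf F (V ⊕ Ya))
        (fun c => Dc (yc c) (Psi F (ext Ya κ) f)) l) : ℝ≥0∞)) ≤ R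

theorem small_pf [DecidableEq V] [Fintype V] {r m δ ν D : ℕ} (hD : D < m) (hδ : 1 ≤ δ)
    (f : MvPolynomial (V ⊕ Ya) F) (hf : IsPfSum r m δ ν f) (Q : ℝ≥0∞) (hQ : Q < 1) :
    Small f D (ν + D * (δ - 1)) Q (r * ∑ j ∈ Finset.range (2 * D + 1),
      (Nat.choose (2 * (m - D) - 1 + j) j : ℝ≥0∞) * (1 - Q ^ δ) ^ j) := by
  classical
  obtain ⟨s, P, A, hs, hP, hA, hfA⟩ := hf
  intro Xt Yt C _ _ κ yc hyc
  obtain ⟨k, hk⟩ : ∃ k, k = m - D := ⟨_, rfl⟩
  have hkD : k + D = m := by omega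
  have hPd : ∀ i, (Psi F (ext Ya κ) (P i)).totalDegree ≤ ν := fun i =>
    totalDegree_Psi_le _ _ _ fun μ hμ => (degree_push_le κ μ).trans (hP i μ hμ)
  have hAd : ∀ i p q, (((A i).map (Psi F (ext Ya κ))) p q).totalDegree ≤ δ := fun i p q =>
    totalDegree_Psi_le _ _ _ fun μ hμ => (degree_push_le κ μ).trans (hA i p q μ hμ)
  choose B hB1 hB2 using fun i => Pool.PF.exists_aeval (hs i) δ _ (hAd i)
  have h := tower_bound (K := Lf F (V ⊕ Ya)) (Pool.PF.pfam (Lf F (V ⊕ Ya)) (2 * m))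
    Pool.PF.pfam_tower (k := k) (D := D) (nu := ν) hδ Pool.PF.forb (Pool.PF.pfam_reduces k)
    (Psi F (ext Ya κ) f)
    (fun i => Psi F (ext Ya κ) (P i) * Pool.PF.pf (s i) ((A i).map (Psi F (ext Ya κ))))
    (by
      rw [hfA, map_sum]
      refine Finset.sum_congr rfl fun i _ => ?_
      rw [map_mul, Pool.PF.map_pf])
    B hB1
    (by
      intro i
      have h0 : aeval (B i) (Pool.PF.pfam (Lf F (V ⊕ Ya)) (2 * m) m (RelEmbedding.refl _)) ∈
          Pool.SDD.Wl (fun j => aeval (B i) (Pool.PF.pfam (Lf F (V ⊕ Ya)) (2 * m) m j)) 0 :=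
        Submodule.subset_span ⟨0, RelEmbedding.refl _, by simp, by simp⟩
      have h1 := Pool.SDD.mul_mem_Wl (hPd i) h0
      rw [Nat.add_zero] at h1
      rw [hkD, hB2 i]
      exact h1)
    yc hyc Q hQ
  refine h.trans ?_
  gcongr
  refine (Pool.PF.sum_pow_card_forb_le (by omega) _).trans (le_of_eq ?_)
  rw [hk, show 2 * m - 2 * (m - D) + 1 = 2 * D + 1 by omega]

end

section
variable {F : Type} [Field F] {V Ya Xt Yt C : Type} [DecidableEq V]

/-- THE MACHINE for polynomials with small shifted spaces -/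
theorem machine2 [Fintype V] [Fintype Xt] [Finite C]
    (f : MvPolynomial (V ⊕ Ya) F) (hml : ∀ μ ∈ f.support, ∀ e, μ (Sum.inl e) ≤ 1)
    (P : Finset V → Prop) (hP : ∀ S, restr S f ≠ 0 ↔ P S)
    (κ : V → Option (Option (Xt ⊕ Yt))) {D : ℕ} (yc : C → Fin D → Yt)
    (hyc : ∀ c, Function.Injective (yc c)) (M : C → Xt → ℕ) (B : ℕ) (hB : ∀ c, ∑ x, M c x = B)
    (h1 : ∀ c (S : Finset V), P S → (∀ e ∈ S, κ e ≠ none) →
      (∀ e ∈ S, ∀ z, κ e = some (some (Sum.inr z)) → z ∈ Set.range (yc c)) →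
      (∀ x, M c x ≤ cnt κ S (Sum.inl x)) ∧ ∀ b, 1 ≤ cnt κ S (Sum.inr (yc c b)))
    (h2 : ∀ c, ∃ S : Finset V, P S ∧ (∀ e ∈ S, κ e ≠ none) ∧ Hits κ (M c) (yc c) S)
    (h3 : ∀ c (S S' : Finset V), P S → P S' → (∀ e ∈ S, κ e ≠ none) → (∀ e ∈ S', κ e ≠ none) →
      Hits κ (M c) (yc c) S → Hits κ (M c) (yc c) S' →
      (∀ e, κ e = some none → (e ∈ S ↔ e ∈ S')) → S = S')
    {l0 : ℕ} {Q R : ℝ≥0∞} (hQ : Q < 1) (hR : Small f D l0 Q R)
    [DecidablePred fun u : Xt → ℕ => ∃ c, ∀ x, M c x ≤ u x] :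
    Q ^ l0 * ((1 - Q) ^ Fintype.card Xt *
      ∑' u : Xt → ℕ, (if ∃ c, ∀ x, M c x ≤ u x then Q ^ (∑ x, u x) else 0)) ≤ Q ^ B * R := by
  classical
  obtain ⟨hlow, hself⟩ := machine_terms f hml P hP κ yc hyc M h1 h2 h3
  have hMdeg : ∀ c, (Finsupp.equivFunOnFinite.symm (M c) : Xt →₀ ℕ).degree = B := by
    intro c
    rw [Finsupp.degree_eq_sum]
    exact hB c
  have h4 := low_series Empty (fun c => Dc (yc c) (Psi F (ext Ya κ) f))
    (fun c => (Finsupp.equivFunOnFinite.symm (M c) : Xt →₀ ℕ)) B hMdeg hlow hself Q hQ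
  have h5 := hR Xt Yt C κ yc hyc
  calc Q ^ l0 * ((1 - Q) ^ Fintype.card Xt *
      ∑' u : Xt → ℕ, (if ∃ c, ∀ x, M c x ≤ u x then Q ^ (∑ x, u x) else 0))
      ≤ Q ^ l0 * (Q ^ B * ((1 - Q) ^ (Fintype.card Xt + 1) * ∑' l : ℕ, Q ^ l *
      (Module.finrank (Lf F (V ⊕ Ya)) (Pool.SDD.Wl (K := Lf F (V ⊕ Ya))
        (fun c => Dc (yc c) (Psi F (ext Ya κ) f)) l) : ℝ≥0∞))) := by
        refine mul_le_mul' le_rfl ((le_of_eq ?_).trans (h4.trans ?_))
        · congr 1
          refine tsum_congr fun u => ?_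
          by_cases h : ∃ c, ∀ x, M c x ≤ u x
          · rw [if_pos h, if_pos (by exact h)]
          · rw [if_neg h, if_neg (by exact h)]
        · rw [Fintype.card_eq_zero (α := Empty), Nat.add_zero]
          refine mul_le_mul' le_rfl (mul_le_mul' le_rfl (ENNReal.tsum_le_tsum fun l => ?_))
          exact mul_le_mul' le_rfl (Nat.cast_le.2 (finrank_empty _ l))
    _ = Q ^ B * (Q ^ l0 * ((1 - Q) ^ (Fintype.card Xt + 1) * ∑' l : ℕ, Q ^ l *
      (Module.finrank (Lf F (V ⊕ Ya)) (Pool.SDD.Wl (K := Lf F (V ⊕ Ya))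
        (fun c => Dc (yc c) (Psi F (ext Ya κ) f)) l) : ℝ≥0∞))) := by ring
    _ ≤ Q ^ B * R := mul_le_mul' le_rfl h5

/-- THE MACHINE FOR WORDS. Choices are families of words `c h : Fin l → α`, `h : Fin D × Bool`. -/
theorem machine_words2 {α : Type} [Fintype V] [Fintype α] [DecidableEq α]
    (f : MvPolynomial (V ⊕ Ya) F) (hml : ∀ μ ∈ f.support, ∀ e, μ (Sum.inl e) ≤ 1)
    (P : Finset V → Prop) (hP : ∀ S, restr S f ≠ 0 ↔ P S) {D l B : ℕ}
    (X : ((Fin D × Bool) × Fin l) × (α × Fin B) → V)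
    (Y : Fin D × (Fin l → α) × (Fin l → α) → V) (Z : Finset V)
    (hinj : Function.Injective (Sum.elim X Y)) (hX : ∀ x, X x ∉ Z) (hY : ∀ y, Y y ∉ Z)
    (h1 : ∀ (c : Fin D × Bool → Fin l → α) (S : Finset V), P S →
      (∀ e ∈ S, e ∈ Z ∨ (∃ x, e = X x) ∨ ∃ b, e = Y (b, c (b, false), c (b, true))) →
      (∀ h i j, X ((h, i), (c h i, j)) ∈ S) ∧ ∀ b, Y (b, c (b, false), c (b, true)) ∈ S)
    (h2 : ∀ c : Fin D × Bool → Fin l → α, ∃ S : Finset V, P S ∧
      ∀ e ∈ S, e ∈ Z ∨ (∃ h i j, e = X ((h, i), (c h i, j))) ∨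
        ∃ b, e = Y (b, c (b, false), c (b, true)))
    {l0 : ℕ} {Q R : ℝ≥0∞} (hQ : Q < 1) (hR : Small f D l0 Q R) :
    Q ^ l0 * (1 - (1 - Q ^ B) ^ Fintype.card α) ^ (2 * D * l) ≤ Q ^ (2 * D * l * B) * R := by
  classical
  set κ := kap X Y Z with hκ
  let yc : (Fin D × Bool → Fin l → α) → Fin D → Fin D × (Fin l → α) × (Fin l → α) :=
    fun c b => (b, c (b, false), c (b, true))
  have hyc : ∀ c, Function.Injective (yc c) := by
    intro c b b' h
    exact (Prod.ext_iff.1 h).1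
  let M : (Fin D × Bool → Fin l → α) → ((Fin D × Bool) × Fin l) × (α × Fin B) → ℕ :=
    fun c x => if x.2.1 = c x.1.1 x.1.2 then 1 else 0
  have hB : ∀ c, ∑ x, M c x = 2 * D * l * B := by
    intro c
    rw [Fintype.sum_prod_type]
    simp only [M]
    have h3 : ∀ p : (Fin D × Bool) × Fin l,
        ∑ y : α × Fin B, (if y.1 = c p.1 p.2 then 1 else 0) = B := by
      intro p
      rw [Fintype.sum_prod_type]
      have h4 : ∀ x : α, ∑ _y : Fin B, (if x = c p.1 p.2 then 1 else 0) =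
          if x = c p.1 p.2 then B else 0 := by
        intro x
        split_ifs <;> simp
      rw [Finset.sum_congr rfl fun x _ => h4 x, Finset.sum_ite_eq' Finset.univ (c p.1 p.2),
        if_pos (Finset.mem_univ _)]
    rw [Finset.sum_congr rfl fun p _ => h3 p, Finset.sum_const, Finset.card_univ, smul_eq_mul]
    simp only [Fintype.card_prod, Fintype.card_fin, Fintype.card_bool]
    ring
  have hmain := machine2 f hml P hP κ yc hyc M _ hB
    (by
      intro c S hS hd hy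
      have h4 := h1 c S hS (by
        intro e he
        rcases (kap_ne_none X Y Z hinj e).1 (hd e he) with ⟨x, rfl⟩ | ⟨y, rfl⟩ | hz
        · exact Or.inr (Or.inl ⟨x, rfl⟩)
        · obtain ⟨b, hb⟩ := hy _ he y (kap_Y X Y Z hinj y)
          exact Or.inr (Or.inr ⟨b, by rw [← hb]⟩)
        · exact Or.inl hz)
      constructor
      · rintro ⟨⟨h, i⟩, ⟨a, j⟩⟩
        simp only [M]
        split_ifs with h5
        · subst h5
          rw [hκ, cnt_X X Y Z hinj, if_pos (h4.1 h i j)]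
        · exact Nat.zero_le _
      · intro b
        rw [hκ, cnt_Y X Y Z hinj, if_pos (h4.2 b)])
    (by
      intro c
      obtain ⟨S, hS, hS2⟩ := h2 c
      have h4 := h1 c S hS (by
        intro e he
        rcases hS2 e he with hz | ⟨h, i, j, rfl⟩ | hb
        · exact Or.inl hz
        · exact Or.inr (Or.inl ⟨_, rfl⟩)
        · exact Or.inr (Or.inr hb))
      refine ⟨S, hS, ?_, ?_, ?_, ?_⟩
      · intro e he
        rw [hκ, kap_ne_none X Y Z hinj]
        rcases hS2 e he with hz | ⟨h, i, j, rfl⟩ | ⟨b, rfl⟩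
        · exact Or.inr (Or.inr hz)
        · exact Or.inl ⟨_, rfl⟩
        · exact Or.inr (Or.inl ⟨_, rfl⟩)
      · rintro ⟨⟨h, i⟩, ⟨a, j⟩⟩
        rw [hκ, cnt_X X Y Z hinj]
        simp only [M]
        by_cases h5 : a = c h i
        · subst h5
          rw [if_pos (h4.1 h i j), if_pos rfl]
        · rw [if_neg h5, if_neg]
          intro h6
          rcases hS2 _ h6 with hz | ⟨h', i', j', h7⟩ | ⟨b, h7⟩
          · exact hX _ hz
          · have h8 := @hinj (Sum.inl _) (Sum.inl _) h7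
            simp only [Sum.inl.injEq, Prod.mk.injEq] at h8
            obtain ⟨⟨rfl, rfl⟩, rfl, -⟩ := h8
            exact h5 rfl
          · have h8 := @hinj (Sum.inl _) (Sum.inr _) h7
            simp at h8
      · intro b
        rw [hκ, cnt_Y X Y Z hinj, if_pos (h4.2 b)]
      · intro y h5
        rw [hκ, cnt_Y X Y Z hinj, if_neg]
        intro h6
        rcases hS2 _ h6 with hz | ⟨h', i', j', h7⟩ | ⟨b, h7⟩
        · exact hY _ hz
        · have h8 := @hinj (Sum.inr _) (Sum.inl _) h7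
          simp at h8
        · have h8 := @hinj (Sum.inr _) (Sum.inr _) h7
          simp only [Sum.inr.injEq] at h8
          exact h5 ⟨b, h8.symm⟩)
    (by
      intro c S S' _ _ hd hd' hh hh' hfree
      refine uniq_of_injective κ ?_ S S' hd hd' ?_ hfree
      · intro e e' v h h'
        rcases v with x | y
        · rw [hκ, kap_eq_inl X Y Z hinj] at h h'
          rw [h, h']
        · rw [hκ, kap_eq_inr X Y Z hinj] at h h'
          rw [h, h']
      · intro v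
        rw [tgt_of_hits κ _ _ (hyc c) S hh, tgt_of_hits κ _ _ (hyc c) S' hh'])
    hQ hR
  refine le_trans (le_of_eq ?_) hmain
  have h5 := series_all (P := (Fin D × Bool) × Fin l) (α := α) (S := Fin B) Q hQ
  rw [Fintype.card_fin] at h5
  have h6 : Fintype.card ((Fin D × Bool) × Fin l) = 2 * D * l := by
    simp only [Fintype.card_prod, Fintype.card_fin, Fintype.card_bool]
    ring
  rw [h6] at h5
  rw [← h5]
  congr 2
  refine tsum_congr fun u => ?_
  have h7 : (∃ c : Fin D × Bool → Fin l → α, ∀ x, M c x ≤ u x) ↔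
      ∀ p, ∃ e, ∀ s, 1 ≤ u (p, (e, s)) := by
    constructor
    · rintro ⟨c, hc⟩ ⟨h, i⟩
      refine ⟨c h i, fun s => ?_⟩
      have h8 := hc ((h, i), (c h i, s))
      simpa [M] using h8
    · intro h8
      choose c hc using h8
      refine ⟨fun h i => c (h, i), ?_⟩
      rintro ⟨⟨h, i⟩, ⟨a, j⟩⟩
      simp only [M]
      split_ifs with h9
      · subst h9
        exact hc (h, i) j
      · exact Nat.zero_le _
  by_cases h8 : ∀ p, ∃ e, ∀ s, 1 ≤ u (p, (e, s))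
  · rw [if_pos h8, if_pos (h7.2 h8)]
  · rw [if_neg h8, if_neg (fun h9 => h8 (h7.1 h9))]

end

/-- passage to real numbers -/
theorem ennreal_to_real2 (A B N E r b k dl l0 : ℕ) (q : ℝ) (hq0 : 0 < q) (hq1 : q < 1)
    (key : ENNReal.ofReal q ^ l0 * (1 - (1 - ENNReal.ofReal q ^ B) ^ A) ^ N ≤
      ENNReal.ofReal q ^ E * (r * ∑ j ∈ Finset.range b, (Nat.choose (k + j) j : ℝ≥0∞) *
        (1 - ENNReal.ofReal q ^ dl) ^ j)) :
    q ^ l0 * (1 - (1 - q ^ B) ^ A) ^ N ≤ q ^ E * (r *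
      ∑ j ∈ Finset.range b, (Nat.choose (k + j) j : ℝ) * (1 - q ^ dl) ^ j) := by
  have hpow : ∀ i : ℕ, (1 : ℝ≥0∞) - ENNReal.ofReal q ^ i = ENNReal.ofReal (1 - q ^ i) := by
    intro i
    rw [ENNReal.ofReal_sub _ (pow_nonneg hq0.le _), ENNReal.ofReal_pow hq0.le, ENNReal.ofReal_one]
  have h1q : ∀ i : ℕ, 0 ≤ 1 - q ^ i := fun i => by
    have := pow_le_one₀ (n := i) hq0.le hq1.le
    linarith
  have h1qN' : (1 - q ^ B) ^ A ≤ 1 := pow_le_one₀ (h1q B) (by linarith [pow_pos hq0 B])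
  have e1 : ((1 : ℝ≥0∞) - (1 - ENNReal.ofReal q ^ B) ^ A) ^ N =
      ENNReal.ofReal ((1 - (1 - q ^ B) ^ A) ^ N) := by
    rw [hpow, ENNReal.ofReal_pow (by linarith), ENNReal.ofReal_sub _ (pow_nonneg (h1q B) _),
      ENNReal.ofReal_pow (h1q B), ENNReal.ofReal_one]
  have e2 : ∑ j ∈ Finset.range b, (Nat.choose (k + j) j : ℝ≥0∞) *
      (1 - ENNReal.ofReal q ^ dl) ^ j = ENNReal.ofReal (∑ j ∈ Finset.range b,
        (Nat.choose (k + j) j : ℝ) * (1 - q ^ dl) ^ j) := by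
    rw [ENNReal.ofReal_sum_of_nonneg (fun j _ => mul_nonneg (by positivity)
      (pow_nonneg (h1q dl) _))]
    apply Finset.sum_congr rfl
    intro j _
    rw [hpow, ENNReal.ofReal_mul (by positivity), ENNReal.ofReal_pow (h1q dl),
      ENNReal.ofReal_natCast]
  have hS : 0 ≤ ∑ j ∈ Finset.range b, (Nat.choose (k + j) j : ℝ) * (1 - q ^ dl) ^ j :=
    Finset.sum_nonneg (fun j _ => mul_nonneg (by positivity) (pow_nonneg (h1q dl) _))
  rw [e1, e2, ← ENNReal.ofReal_pow hq0.le, ← ENNReal.ofReal_pow hq0.le, ← ENNReal.ofReal_natCast,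
    ← ENNReal.ofReal_mul (by positivity), ← ENNReal.ofReal_mul (by positivity),
    ← ENNReal.ofReal_mul (by positivity)] at key
  exact (ENNReal.ofReal_le_ofReal_iff
    (mul_nonneg (by positivity) (mul_nonneg (by positivity) hS))).mp key

section
variable {F : Type} [Field F] {V Ya : Type} [DecidableEq V]

/-- the form for bits, for sums of Pfaffians -/
theorem pf_bits_real [Fintype V]
    (f : MvPolynomial (V ⊕ Ya) F) (hml : ∀ μ ∈ f.support, ∀ e, μ (Sum.inl e) ≤ 1)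
    (P : Finset V → Prop) (hP : ∀ S, restr S f ≠ 0 ↔ P S) {D l B : ℕ}
    (X : ((Fin D × Bool) × Fin l) × (Bool × Fin B) → V)
    (Y : Fin D × (Fin l → Bool) × (Fin l → Bool) → V) (Z : Finset V)
    (hinj : Function.Injective (Sum.elim X Y)) (hX : ∀ x, X x ∉ Z) (hY : ∀ y, Y y ∉ Z)
    (h1 : ∀ (c : Fin D × Bool → Fin l → Bool) (S : Finset V), P S →
      (∀ e ∈ S, e ∈ Z ∨ (∃ x, e = X x) ∨ ∃ b, e = Y (b, c (b, false), c (b, true))) →
      (∀ h i j, X ((h, i), (c h i, j)) ∈ S) ∧ ∀ b, Y (b, c (b, false), c (b, true)) ∈ S)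
    (h2 : ∀ c : Fin D × Bool → Fin l → Bool, ∃ S : Finset V, P S ∧
      ∀ e ∈ S, e ∈ Z ∨ (∃ h i j, e = X ((h, i), (c h i, j))) ∨
        ∃ b, e = Y (b, c (b, false), c (b, true)))
    {r m δ ν : ℕ} (hf : IsPfSum r m δ ν f) (hδ : 1 ≤ δ) (hDm : D < m)
    (q : ℝ) (hq0 : 0 < q) (hq1 : q < 1) :
    q ^ (ν + D * (δ - 1)) * (2 - q ^ B) ^ (2 * D * l) ≤ r *
      ∑ j ∈ Finset.range (2 * D + 1), (Nat.choose (2 * (m - D) - 1 + j) j : ℝ) *
        (1 - q ^ δ) ^ j := by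
  have h := ennreal_to_real2 2 B (2 * D * l) (2 * D * l * B) r (2 * D + 1) (2 * (m - D) - 1) δ
    (ν + D * (δ - 1)) q hq0 hq1 (by
      have h3 := machine_words2 f hml P hP X Y Z hinj hX hY h1 h2 (ofReal_lt_one hq1)
        (small_pf hDm hδ f hf _ (ofReal_lt_one hq1))
      rwa [Fintype.card_bool] at h3)
  have h3 : (1 - (1 - q ^ B) ^ 2) ^ (2 * D * l) =
      q ^ (2 * D * l * B) * (2 - q ^ B) ^ (2 * D * l) := by
    rw [mul_comm (2 * D * l) B, pow_mul q B, ← mul_pow]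
    congr 1
    ring
  rw [h3, mul_left_comm] at h
  exact le_of_mul_le_mul_left h (pow_pos hq0 _)

end

end Pool.Agent.Helper76.CDET
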