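import Pool.Agent.Helper76.CPF.Terms
import Pool.Agent.Helper76.CDET.Low
import Pool.Agent.SDD.Udelta
import Pool.Agent.SDD.PfInst
import Pool.Agent.Helper69.SDD.R2
import Pool.Agent.PF.Matrix

/-!
Sums of Pfaffians as identity tests (MP_b6562f_lc): the dimension bound.
-/

set_option autoImplicit false
set_option linter.unusedSectionVars false

namespace Pool.Agent.Helper76.CDET

open Finset MvPolynomial
open scoped ENNReal BigOperators

/-- the extra variables `E` are not needed -/
theorem finrank_empty {K : Type} [Field K] {σ C : Type} [Finite σ] [Finite C]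
    (G : C → MvPolynomial σ K) (l : ℕ) :
    Module.finrank K (Wl Empty G l) ≤ Module.finrank K (Pool.SDD.Wl G l) := by
  have h : Wl Empty G l ≤
      (Pool.SDD.Wl G l).map (rename Sum.inl : MvPolynomial σ K →ₐ[K]
        MvPolynomial (σ ⊕ Empty) K).toLinearMap := by
    unfold Wl
    rw [Submodule.span_le]
    rintro f ⟨μ, k, hμ, rfl⟩
    let e : σ ⊕ Empty ≃ σ := Equiv.sumEmpty _ _
    refine ⟨monomial (μ.mapDomain e) 1 * G k, Submodule.subset_span ⟨_, k, ?_, rfl⟩, ?_⟩
    · rw [Finsupp.degree_mapDomain]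
      exact hμ
    · simp only [AlgHom.toLinearMap_apply, map_mul, rename_monomial]
      have : Finsupp.mapDomain Sum.inl (Finsupp.mapDomain (⇑e) μ) = μ := by
        rw [← Finsupp.mapDomain_comp]
        have h2 : (Sum.inl ∘ ⇑e : σ ⊕ Empty → σ ⊕ Empty) = id := by
          funext x
          rcases x with x | x
          · rfl
          · exact x.elim
        rw [h2, Finsupp.mapDomain_id]
      rw [this]
  exact (Submodule.finrank_mono h).trans (Submodule.finrank_map_le _ _)

section tower
variable {K : Type} [Field K] {Xt Yt C E : Type} {ι : ℕ → Type}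

/-- the dimension bound for sums of members of a tower -/
theorem tower_bound [Fintype Xt] [Finite C] [Fintype E] [∀ k, Fintype (ι k)]
    (p : ∀ k, ι k → MvPolynomial E K) (hp : Pool.SDD.Tower p)
    {T k D dl nu : ℕ} (hdl : 1 ≤ dl) (Fb : ι k → Finset E) (hr : Pool.SDD.Reduces (p k) Fb)
    (Φ : MvPolynomial (Xt ⊕ Yt) K) (f : Fin T → MvPolynomial (Xt ⊕ Yt) K) (hΦ : Φ = ∑ t, f t)
    (A : Fin T → E → MvPolynomial (Xt ⊕ Yt) K) (hA : ∀ t e, (A t e).totalDegree ≤ dl)
    (hf : ∀ t, f t ∈ Pool.SDD.Wl (fun j => aeval (A t) (p (k + D) j)) nu)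
    (yc : C → Fin D → Yt) (hyc : ∀ c, Function.Injective (yc c)) (Q : ℝ≥0∞) (hQ : Q < 1) :
    Q ^ (nu + D * (dl - 1)) * ((1 - Q) ^ (Fintype.card Xt + 1) *
      ∑' l : ℕ, Q ^ l * (Module.finrank K (Pool.SDD.Wl (fun c => Dc (yc c) Φ) l) : ℝ≥0∞)) ≤
      T * ∑ j : ι k, (1 - Q ^ dl) ^ (Fb j).card := by
  classical
  set l0 := nu + D * (dl - 1) with hl0
  set g : Fin T → ι k → MvPolynomial Xt K :=
    fun t j => aeval (fun e => eps0 K Xt Yt (A t e)) (p k j) with hg
  have hinj : ∀ c, Function.Injective (Sum.map (id : Xt → Xt) (yc c)) := fun c =>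
    Sum.map_injective.2 ⟨Function.injective_id, hyc c⟩
  have hkill : ∀ c (x : Xt ⊕ Yt), (killCompl (hinj c) (X x : MvPolynomial (Xt ⊕ Yt) K)).totalDegree ≤ 1 := by
    intro c x
    rw [killCompl, aeval_X]
    split_ifs
    · exact (totalDegree_X _).le
    · simp
  have hmem : ∀ c, Dc (yc c) Φ ∈ ⨆ t, Pool.SDD.Wl (g t) l0 := by
    intro c
    have h1 : ∀ t, ∃ G : MvPolynomial Xt K, G ∈ Pool.SDD.Wl (g t) l0 ∧
        ∀ u, coeff u G = coeff (Finsupp.mapDomain Sum.inl u +
          ∑ b, Finsupp.single (Sum.inr (yc c b)) 1) (f t) := by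
      intro t
      have h2 := Pool.SDD.aeval_mem_Wl (K := K)
        (fun x => killCompl (hinj c) (X x : MvPolynomial (Xt ⊕ Yt) K)) (hkill c) (hf t)
      have h3 : ∀ q : MvPolynomial (Xt ⊕ Yt) K,
          aeval (fun x => killCompl (hinj c) (X x : MvPolynomial (Xt ⊕ Yt) K)) q =
            killCompl (hinj c) q := by
        intro q
        have h4 : (aeval (fun x => killCompl (hinj c) (X x : MvPolynomial (Xt ⊕ Yt) K)) :
            MvPolynomial (Xt ⊕ Yt) K →ₐ[K] MvPolynomial (Xt ⊕ Fin D) K) =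
            killCompl (hinj c) := by
          apply algHom_ext
          intro x
          rw [aeval_X]
        rw [h4]
      have h5 : ∀ j, killCompl (hinj c) (aeval (A t) (p (k + D) j)) =
          aeval (fun e => killCompl (hinj c) (A t e)) (p (k + D) j) := by
        intro j
        rw [← AlgHom.comp_apply]
        congr 1
        apply algHom_ext
        intro e
        rw [AlgHom.comp_apply, aeval_X, aeval_X]
      simp only [h3] at h2
      simp only [h5] at h2
      have hdeg : ∀ e, (killCompl (hinj c) (A t e)).totalDegree ≤ dl := by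
        intro e
        rw [← h3]
        refine (Pool.SDD.totalDegree_aeval_le_mul _ 1 (hkill c) _).trans ?_
        rw [mul_one]
        exact hA t e
      obtain ⟨G, hG1, hG2⟩ := Pool.SDD.R2 p hp k D nu dl hdl
        (fun e => killCompl (hinj c) (A t e)) hdeg _ h2
      refine ⟨G, ?_, ?_⟩
      · have h6 : ∀ e, aeval (Sum.elim X 0 : Xt ⊕ Fin D → MvPolynomial Xt K)
            (killCompl (hinj c) (A t e)) = eps0 K Xt Yt (A t e) := by
          intro e
          rw [eps0, ← AlgHom.comp_apply]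
          congr 1
          apply algHom_ext
          intro x
          rw [AlgHom.comp_apply, aeval_X, killCompl, aeval_X]
          rcases x with x | y
          · have h7 : (Sum.inl x : Xt ⊕ Yt) ∈ Set.range (Sum.map (id : Xt → Xt) (yc c)) :=
              ⟨Sum.inl x, rfl⟩
            rw [dif_pos h7, aeval_X]
            have h8 : (Equiv.ofInjective _ (hinj c)).symm ⟨Sum.inl x, h7⟩ = Sum.inl x := by
              rw [Equiv.symm_apply_eq]
              rfl
            rw [h8]
            rfl
          · by_cases h7 : (Sum.inr y : Xt ⊕ Yt) ∈ Set.range (Sum.map (id : Xt → Xt) (yc c))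
            · rw [dif_pos h7, aeval_X]
              obtain ⟨z, hz⟩ := h7
              rcases z with z | b
              · simp at hz
              · have h8 : (Equiv.ofInjective _ (hinj c)).symm ⟨Sum.inr y, ⟨Sum.inr b, hz⟩⟩ =
                    Sum.inr b := by
                  rw [Equiv.symm_apply_eq]
                  exact Subtype.ext hz.symm
                rw [h8]
                rfl
            · rw [dif_neg h7, map_zero]
              rfl
        simp only [h6] at hG1
        exact hG1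
      · intro u
        rw [hG2 u, coeff_killCompl]
        congr 1
        rw [Finsupp.mapDomain_add, Finsupp.embDomain_eq_mapDomain, ← Finsupp.mapDomain_comp,
          Finsupp.mapDomain_finsetSum]
        congr 1
        refine Finset.sum_congr rfl fun b _ => ?_
        rw [Finsupp.mapDomain_single]
        rfl
    choose G hG1 hG2 using h1
    have h2 : Dc (yc c) Φ = ∑ t, G t := by
      ext u
      rw [coeff_Dc (yc c) (hyc c), hΦ, coeff_sum, coeff_sum]
      exact Finset.sum_congr rfl fun t _ => (hG2 t u).symm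
    rw [h2]
    exact Submodule.sum_mem _ fun t _ => Submodule.mem_iSup_of_mem t (hG1 t)
  have hle : ∀ l, Pool.SDD.Wl (fun c => Dc (yc c) Φ) l ≤ ⨆ t, Pool.SDD.Wl (g t) (l + l0) := by
    intro l
    conv_lhs => unfold Pool.SDD.Wl
    rw [Submodule.span_le]
    rintro _ ⟨μ, c, hμ, rfl⟩
    have h3 : (LinearMap.mulLeft K (monomial μ (1:K))) (Dc (yc c) Φ) ∈
        Submodule.map (LinearMap.mulLeft K (monomial μ (1:K))) (⨆ t, Pool.SDD.Wl (g t) l0) :=
      Submodule.mem_map_of_mem (hmem c)
    rw [Submodule.map_iSup] at h3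
    have h4 : (⨆ t, Submodule.map (LinearMap.mulLeft K (monomial μ (1:K)))
        (Pool.SDD.Wl (g t) l0)) ≤ ⨆ t, Pool.SDD.Wl (g t) (l + l0) := by
      apply iSup_mono
      intro t
      rw [Submodule.map_le_iff_le_comap]
      intro x hx
      exact Pool.SDD.monomial_mul_mem_Wl hμ hx
    exact h4 h3
  have hrank : ∀ l, Module.finrank K (Pool.SDD.Wl (fun c => Dc (yc c) Φ) l) ≤
      ∑ t, Module.finrank K (Pool.SDD.Wl (g t) (l + l0)) := fun l =>
    (Submodule.finrank_mono (hle l)).trans (Pool.SDD.finrank_iSup_le _)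
  have hU : ∀ t, (1 - Q) ^ (Fintype.card Xt + 1) *
      ∑' l, Q ^ l * (Module.finrank K (Pool.SDD.Wl (g t) l) : ℝ≥0∞) ≤
      ∑ j : ι k, (1 - Q ^ dl) ^ (Fb j).card := fun t =>
    Pool.SDD.Udelta (p k) Fb hr dl hdl _
      (fun e => (eps0_totalDegree _).trans (hA t e)) Q hQ
  calc Q ^ l0 * ((1 - Q) ^ (Fintype.card Xt + 1) *
      ∑' l : ℕ, Q ^ l * (Module.finrank K (Pool.SDD.Wl (fun c => Dc (yc c) Φ) l) : ℝ≥0∞))
      ≤ Q ^ l0 * ((1 - Q) ^ (Fintype.card Xt + 1) *
        ∑' l : ℕ, Q ^ l * ((∑ t, Module.finrank K (Pool.SDD.Wl (g t) (l + l0)) : ℕ) : ℝ≥0∞)) := by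
        gcongr with l
        exact hrank l
    _ = ∑ t, (1 - Q) ^ (Fintype.card Xt + 1) * (Q ^ l0 *
        ∑' l : ℕ, Q ^ l * (Module.finrank K (Pool.SDD.Wl (g t) (l + l0)) : ℝ≥0∞)) := by
        rw [← Finset.mul_sum, ← Finset.mul_sum, mul_left_comm]
        congr 2
        rw [← Summable.tsum_finsetSum (fun t _ => ENNReal.summable)]
        refine tsum_congr fun l => ?_
        rw [Nat.cast_sum, Finset.mul_sum]
    _ ≤ ∑ t, (1 - Q) ^ (Fintype.card Xt + 1) *
        ∑' l : ℕ, Q ^ l * (Module.finrank K (Pool.SDD.Wl (g t) l) : ℝ≥0∞) := by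
        gcongr with t
        exact Pool.SDD.series_shift (fun l => Module.finrank K (Pool.SDD.Wl (g t) l)) l0 Q
    _ ≤ ∑ _t : Fin T, ∑ j : ι k, (1 - Q ^ dl) ^ (Fb j).card :=
        Finset.sum_le_sum fun t _ => hU t
    _ = T * ∑ j : ι k, (1 - Q ^ dl) ^ (Fb j).card := by
        rw [Finset.sum_const, Finset.card_univ, Fintype.card_fin, nsmul_eq_mul]

end tower

end Pool.Agent.Helper76.CDET
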