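import Pool.Agent.Helper76.CDET.Machine

/-!
Sums of Pfaffians as identity tests (MP_b6562f_lc): the lowest terms of the polynomials of the
choices, for any test polynomial.
-/

set_option autoImplicit false
set_option linter.unusedSectionVars false

namespace Pool.Agent.Helper76.CDET

open Finset MvPolynomial
open scoped ENNReal BigOperators

section
variable {F : Type} [Field F] {V Ya Xt Yt C : Type} [DecidableEq V]

/-- the polynomial of a choice has the lowest term `M` -/
theorem machine_terms [Fintype V] [Fintype Xt]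
    (f : MvPolynomial (V ⊕ Ya) F) (hml : ∀ μ ∈ f.support, ∀ e, μ (Sum.inl e) ≤ 1)
    (P : Finset V → Prop) (hP : ∀ S, restr S f ≠ 0 ↔ P S)
    (κ : V → Option (Option (Xt ⊕ Yt))) {D : ℕ} (yc : C → Fin D → Yt)
    (hyc : ∀ c, Function.Injective (yc c)) (M : C → Xt → ℕ)
    (h1 : ∀ c (S : Finset V), P S → (∀ e ∈ S, κ e ≠ none) →
      (∀ e ∈ S, ∀ z, κ e = some (some (Sum.inr z)) → z ∈ Set.range (yc c)) →
      (∀ x, M c x ≤ cnt κ S (Sum.inl x)) ∧ ∀ b, 1 ≤ cnt κ S (Sum.inr (yc c b)))
    (h2 : ∀ c, ∃ S : Finset V, P S ∧ (∀ e ∈ S, κ e ≠ none) ∧ Hits κ (M c) (yc c) S)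
    (h3 : ∀ c (S S' : Finset V), P S → P S' → (∀ e ∈ S, κ e ≠ none) → (∀ e ∈ S', κ e ≠ none) →
      Hits κ (M c) (yc c) S → Hits κ (M c) (yc c) S' →
      (∀ e, κ e = some none → (e ∈ S ↔ e ∈ S')) → S = S') :
    (∀ c T, coeff T (Dc (yc c) (Psi F (ext Ya κ) f)) ≠ 0 →
      (Finsupp.equivFunOnFinite.symm (M c) : Xt →₀ ℕ) ≤ T) ∧
    ∀ c, coeff (Finsupp.equivFunOnFinite.symm (M c) : Xt →₀ ℕ)
      (Dc (yc c) (Psi F (ext Ya κ) f)) ≠ 0 := by
  classical
  set κ' := ext Ya κ with hκ'
  have hcoeff : ∀ c T, coeff T (Dc (yc c) (Psi F κ' f)) = coeff (Finsupp.mapDomain Sum.inl T +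
      ∑ b, Finsupp.single (Sum.inr (yc c b)) 1) (Psi F κ' f) := fun c T =>
    coeff_Dc (yc c) (hyc c) _ T
  have hdead : ∀ μ : (V ⊕ Ya) →₀ ℕ, (∀ v, κ' v = none → μ v = 0) ↔ ∀ e ∈ sup μ, κ e ≠ none := by
    intro μ
    constructor
    · intro h e he hκ
      exact (by simpa [sup] using he : μ (Sum.inl e) ≠ 0) (h (Sum.inl e) hκ)
    · intro h v hv
      rcases v with e | y
      · by_contra h4
        exact h e (by simpa [sup] using h4) hv
      · exact absurd hv (by simp [hκ', ext])
  constructor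
  · intro c T hT
    rw [hcoeff] at hT
    obtain ⟨μ, hμ, hμd, hμp⟩ := exists_of_coeff_Psi_ne_zero κ' f _ hT
    have hS := prop_sup f P hP μ hμ
    have hT' : Finsupp.mapDomain Sum.inl T + ∑ b, Finsupp.single (Sum.inr (yc c b)) 1 =
        tgt (fun x => T x) (yc c) := by
      rw [tgt]
      congr 2
      ext x
      rfl
    have hcn : ∀ v, cnt κ (sup μ) v = tgt (fun x => T x) (yc c) v := by
      intro v
      rw [← push_ext_cnt κ μ (hml μ hμ) v, ← hκ', hμp, hT']
    have hh := hits_of_tgt κ _ (yc c) (hyc c) (sup μ) hcn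
    have h4 := h1 c (sup μ) hS ((hdead μ).1 hμd) (by
      intro e he z hz
      by_contra hzr
      exact cnt_eq_zero κ (hh.2.2 z hzr) e he hz)
    intro x
    have h5 := h4.1 x
    rw [hh.1] at h5
    exact h5
  · intro c
    rw [hcoeff]
    obtain ⟨S, hS, hSd, hSh⟩ := h2 c
    obtain ⟨μ, hμ, hμS⟩ := exists_sup f P hP S hS
    have hPμ := prop_sup f P hP μ hμ
    have hmono : ∀ v, cnt κ (sup μ) v ≤ cnt κ S v := fun v => cnt_mono κ hμS v
    have hdμ : ∀ e ∈ sup μ, κ e ≠ none := fun e he => hSd e (hμS he)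
    have h4 := h1 c (sup μ) hPμ hdμ (by
      intro e he z hz
      by_contra hzr
      exact cnt_eq_zero κ (hSh.2.2 z hzr) e (hμS he) hz)
    have hh : Hits κ (M c) (yc c) (sup μ) := by
      refine ⟨fun x => le_antisymm ((hmono _).trans (hSh.1 x).le) (h4.1 x), fun b =>
        le_antisymm ((hmono _).trans (hSh.2.1 b).le) (h4.2 b), fun z hz => ?_⟩
      have := (hmono (Sum.inr z)).trans (hSh.2.2 z hz).le
      omega
    have htgt : push κ' μ = tgt (M c) (yc c) := by
      ext v
      rw [hκ', push_ext_cnt κ μ (hml μ hμ), tgt_of_hits κ _ _ (hyc c) _ hh]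
    have h5 := coeff_Psi_ne_zero κ' f μ hμ ((hdead μ).2 hdμ) (by
      intro μ' hμ' hd' hp' hr'
      have hPμ' := prop_sup f P hP μ' hμ'
      have hc' : ∀ v, cnt κ (sup μ') v = tgt (M c) (yc c) v := by
        intro v
        rw [← push_ext_cnt κ μ' (hml μ' hμ') v, ← hκ', hp', htgt]
      have hSS : sup μ' = sup μ := by
        refine h3 c _ _ hPμ' hPμ ((hdead μ').1 hd') hdμ (hits_of_tgt κ _ _ (hyc c) _ hc') hh ?_
        intro e he
        have h6 := DFunLike.congr_fun hr' (Sum.inl e)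
        rw [rest, rest, Finsupp.filter_apply_pos (fun v => κ' v = some none) _
          (by simpa [hκ', ext] using he), Finsupp.filter_apply_pos (fun v => κ' v = some none) _
          (by simpa [hκ', ext] using he)] at h6
        simp [sup, h6]
      ext v
      rcases v with e | y
      · have h6 := hml μ hμ e
        have h7 := hml μ' hμ' e
        have h8 : e ∈ sup μ' ↔ e ∈ sup μ := by rw [hSS]
        simp only [sup, Finset.mem_filter, Finset.mem_univ, true_and] at h8
        omega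
      · have h6 := DFunLike.congr_fun hr' (Sum.inr y)
        rw [rest, rest, Finsupp.filter_apply_pos (fun v => κ' v = some none) _
            (by simp [hκ', ext]), Finsupp.filter_apply_pos (fun v => κ' v = some none) _
            (by simp [hκ', ext])] at h6
        exact h6)
    rw [htgt, tgt] at h5
    exact h5

end

end Pool.Agent.Helper76.CDET
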